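import Pool.Agent.Helper92.SS.Det

/-!
# SS (MP_fb29e9_nt, AlmostEveryOval v6): the law for all centres at the same time, almost surely; the random function of class `C^5`
-/

open MeasureTheory Real Set Filter Topology

set_option autoImplicit false

namespace Pool.Agent.Helper93.EX

open Pool.Agent.Helper93.AO
open Pool.Agent.Helper22.AE (rho)
open Pool.Agent.Helper22.AW (LawS)
open Pool.Agent.Helper88.EX (idf Es ErO)

/-- the truncated formula, almost surely -/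
theorem as_trunc {H₀ : ℝ → ℝ} (h2 : ContDiff ℝ 2 H₀) (hp : Function.Periodic H₀ (2 * π)) {τ : ℝ} (hτ : τ ≠ 0) :
    ∀ᵐ ω ∂(PP nu1), (∀ t, 0 < Hx H₀ τ ω t + deriv (deriv (Hx H₀ τ ω)) t) →
      ∀ ε : ℝ, 0 < ε → ∃ a₀ : ℕ, ∀ a : ℕ, a₀ ≤ a → ∃ p₀ : ℕ, ∀ p : ℕ, p₀ ≤ p → ∀ R ∈ Icc ((2 : ℝ) ^ p) (2 ^ (p + 1)), ∀ c : ℝ × ℝ,
        |Er idf (Hx H₀ τ ω) c R - sqrt R * Mx (Hx H₀ τ ω) (NN a p) R c| ≤ ε * (sqrt R * Lx p ^ (1 / 4 : ℝ)) := by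
  obtain ⟨G, K, hK, hG, hr, hc, hd⟩ := stek h2 hp
  filter_upwards [as_unif nu1_rapid hτ hK hG hr] with ω hω hpos ε hε
  have hG2 : ∀ p, ContDiff ℝ 2 (G p) := fun p => (hG p).smooth.of_le (by norm_num)
  have hH2 := hx_cd h2 τ ω
  have hHp := hx_pd hp τ ω
  refine trunc hH2 hHp hpos (G := fun p => Hx (G p) τ ω) (K := K) (fun p => hx_cd (hG2 p) τ ω) (fun p => hx_pd (hG p).per τ ω) ?_ ?_ hω hε
  · intro p t
    have e : Hx (G p) τ ω t - Hx H₀ τ ω t = G p t - H₀ t := by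
      unfold Hx
      ring
    rw [e]
    exact hc p t
  · intro ε hε
    obtain ⟨p₀, h⟩ := hd ε hε
    refine ⟨p₀, fun p hp' t => ?_⟩
    rw [hx_rho (hG2 p), hx_rho h2]
    have e : rho (G p) t + τ * rho (WW ω) t - (rho H₀ t + τ * rho (WW ω) t) = rho (G p) t - rho H₀ t := by ring
    rw [e]
    exact h p hp' t

/-- the law for all centres at the same time, almost surely -/
theorem as_law_s {H₀ : ℝ → ℝ} (h2 : ContDiff ℝ 2 H₀) (hp : Function.Periodic H₀ (2 * π)) {τ : ℝ} (hτ : τ ≠ 0) {σ : ℝ} (hσ : σ = 1 ∨ σ = -1) :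
    ∀ᵐ ω ∂(PP nu1), (∀ t, 0 < Hx H₀ τ ω t + deriv (deriv (Hx H₀ τ ω)) t) → LawS σ (Hx H₀ τ ω) := by
  filter_upwards [as_trunc h2 hp hτ, as_law4 h2 hp hτ hσ] with ω h1 h3 hpos
  exact lawS_of ⟨hx_cd h2 τ ω, hx_pd hp τ ω, hpos⟩ hσ (h1 hpos) (h3 hpos)

end Pool.Agent.Helper93.EX
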