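import Pool.Agent.Helper22.AW.Defs

/-!
# SS (MP_fb29e9_nt, AlmostEveryOval v6): the definitions are in `Pool.Agent.Helper22.AW.Defs`
-/
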