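import Pool.Agent.Helper22.AW.Defs

/-!
# SS (MP_fb29e9_nt, AlmostEveryOval v6): the radii that are bad for some centre: the net of centres

The truncated formula has only the frequencies `< N = NN a p`, so the error at all centres is known from the error at `O(N^8)` centres.
-/

open MeasureTheory Real Set Filter Topology

set_option autoImplicit false

namespace Pool.Agent.Helper93.EX

open Pool.Agent.Helper93.AO
open Pool.Agent.Helper22.AE (rho)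
open Pool.Agent.Helper22.AW (LS LawS)
open Pool.Agent.Helper88.EX (idf Es Es_one Es_neg Es_le ErO trunc_open)

private lemma per_bdd92 {f : ℝ → ℝ} (hc : Continuous f) (hp : Function.Periodic f (2 * π)) : ∃ V : ℝ, 0 ≤ V ∧ ∀ t, |f t| ≤ V := by
  obtain ⟨x, _, hx⟩ := (isCompact_Icc (a := (0 : ℝ)) (b := 2 * π)).exists_isMaxOn ⟨0, by constructor <;> positivity⟩ hc.abs.continuousOn
  refine ⟨|f x|, abs_nonneg _, fun t => ?_⟩
  obtain ⟨s, hs, he⟩ := hp.exists_mem_Ico₀ (by positivity) t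
  rw [he]
  exact hx ⟨hs.1, hs.2.le⟩

private lemma bds92 {H : ℝ → ℝ} (h2 : ContDiff ℝ 2 H) (hp : Function.Periodic H (2 * π)) :
    ∃ K B : ℝ, 0 ≤ K ∧ 0 ≤ B ∧ (∀ t, |rho H t| ≤ K) ∧ ∀ t, |H t| ≤ B := by
  have hc : Continuous (rho H) := Pool.Agent.Helper22.OV.o3_rho_cont h2
  have hper : Function.Periodic (rho H) (2 * π) := by
    have hd : ∀ {f : ℝ → ℝ}, Function.Periodic f (2 * π) → Function.Periodic (deriv f) (2 * π) := by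
      intro f h s
      have h3 : (fun x => f (x + 2 * π)) = f := funext h
      calc deriv f (s + 2 * π) = deriv (fun x => f (x + 2 * π)) s := (deriv_comp_add_const _ _ _).symm
        _ = _ := by rw [h3]
    intro s
    unfold rho
    rw [hp s, hd (hd hp) s]
  obtain ⟨K, hK0, hK⟩ := per_bdd92 hc hper
  obtain ⟨B, hB0, hB⟩ := per_bdd92 h2.continuous hp
  exact ⟨K, B, hK0, hB0, hK, hB⟩

/-- the order of the error on a dyadic interval -/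
theorem g_low92 {p : ℕ} {R : ℝ} (hR : R ∈ Icc ((2 : ℝ) ^ p) (2 ^ (p + 1))) : sqrt R * Lx p ^ (1 / 4 : ℝ) ≤ gR R := by
  have hR0 : 0 < R := lt_of_lt_of_le (by positivity) hR.1
  have h1 : Lx p ≤ log R := by
    unfold Lx
    have := log_le_log (by positivity) hR.1
    rwa [log_pow] at this
  have hL0 : 0 ≤ Lx p := by unfold Lx; positivity
  unfold gR
  rw [sqrt_eq_rpow]
  exact mul_le_mul_of_nonneg_left (rpow_le_rpow hL0 h1 (by norm_num)) (rpow_nonneg hR0.le _)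

theorem L_one92 {p : ℕ} (hp : 2 ≤ p) : 1 ≤ Lx p ^ (1 / 4 : ℝ) := by
  refine one_le_rpow ?_ (by norm_num)
  unfold Lx
  have h1 := Real.log_two_gt_d9
  have h2 : (2 : ℝ) ≤ p := by exact_mod_cast hp
  nlinarith

/-- the nearest centre of the net -/
theorem net92 {M : ℕ} (hM : 0 < M) (x : ℝ) : ∃ i < M, |Int.fract x - (i : ℝ) / M| ≤ 1 / M := by
  have hM0 : (0 : ℝ) < M := by exact_mod_cast hM
  have h0 : 0 ≤ Int.fract x * M := mul_nonneg (Int.fract_nonneg _) hM0.le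
  refine ⟨⌊Int.fract x * M⌋₊, ?_, ?_⟩
  · rw [Nat.floor_lt h0]
    calc Int.fract x * M < 1 * M := mul_lt_mul_of_pos_right (Int.fract_lt_one _) hM0
      _ = M := one_mul _
  · have h1 := Nat.floor_le h0
    have h2 := Nat.lt_floor_add_one (Int.fract x * M)
    have e : Int.fract x - (⌊Int.fract x * M⌋₊ : ℝ) / M = (Int.fract x * M - ⌊Int.fract x * M⌋₊) / M := by
      field_simp
    rw [e, abs_div, abs_of_pos hM0, div_le_div_iff_of_pos_right hM0, abs_of_nonneg (by linarith)]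
    linarith

/-- the exceptional radii for all centres at the same time -/
theorem det92 {H : ℝ → ℝ} {K B : ℝ} (hB0 : 0 ≤ B) (hK : ∀ t, |rho H t| ≤ K) (hB : ∀ t, |H t| ≤ B) {σ : ℝ} (hσ : |σ| = 1)
    {T : ℝ} {E : ℝ → ℝ × ℝ → ℝ}
    (hE : ∀ ε : ℝ, 0 < ε → ∃ a₀ : ℕ, ∀ a : ℕ, a₀ ≤ a → ∃ p₀ : ℕ, ∀ p : ℕ, p₀ ≤ p → ∀ R ∈ Icc ((2 : ℝ) ^ p) (2 ^ (p + 1)), ∀ c : ℝ × ℝ,
      |E R c - sqrt R * Mx H (NN a p) R c| ≤ ε * (sqrt R * Lx p ^ (1 / 4 : ℝ)))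
    (hL : ∀ t : ℝ, 0 < t → ∀ ε : ℝ, 0 < ε → ∃ p₀ : ℕ, ∀ p : ℕ, p₀ ≤ p → ∀ c : ℝ × ℝ,
      LV (fun R => σ * E R c) t (2 ^ p) (2 ^ (p + 1)) ≤ 2 ^ ((1 - (t / T) ^ 4 + ε) * p : ℝ)) :
    ∀ t : ℝ, 0 < t → ∀ ε : ℝ, 0 < ε → ∃ p₀ : ℕ, ∀ p : ℕ, p₀ ≤ p →
      LS (fun R c => σ * E R c) t (2 ^ p) (2 ^ (p + 1)) ≤ 2 ^ ((1 - (t / T) ^ 4 + ε) * p : ℝ) := by
  intro t ht ε hε
  -- the choice of `d`
  obtain ⟨d, hd0, hdt, hd⟩ : ∃ d : ℝ, 0 < d ∧ 3 * d < t ∧ (t / T) ^ 4 - ε / 3 ≤ ((t - 3 * d) / T) ^ 4 := by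
    have hc : ContinuousAt (fun d : ℝ => ((t - 3 * d) / T) ^ 4) 0 := by fun_prop
    have h1 : ∀ᶠ d in 𝓝 (0 : ℝ), (t / T) ^ 4 - ε / 3 < ((t - 3 * d) / T) ^ 4 := hc.eventually (lt_mem_nhds (by
      simp only [mul_zero, sub_zero]
      linarith))
    have h2 : ∀ᶠ d in 𝓝 (0 : ℝ), 3 * d < t := (continuous_const.mul continuous_id).continuousAt.eventually (gt_mem_nhds (by simpa using ht))
    obtain ⟨d, h3, h4⟩ := (((h1.and h2).filter_mono nhdsWithin_le_nhds).and (self_mem_nhdsWithin : Ioi (0 : ℝ) ∈ 𝓝[>] 0)).exists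
    exact ⟨d, h4, h3.2, h3.1.le⟩
  obtain ⟨a, ha⟩ := hE d hd0
  obtain ⟨p₁, hp₁⟩ := ha a le_rfl
  obtain ⟨p₂, hp₂⟩ := hL (t - 3 * d) (by linarith) (ε / 3) (by positivity)
  obtain ⟨m₀, hm₀⟩ : ∃ m₀ : ℕ, m₀ = ⌈72 * sqrt K * (1 + B) / d⌉₊ + 1 := ⟨_, rfl⟩
  have hm1 : 72 * sqrt K * (1 + B) ≤ d * m₀ := by
    have h1 : 72 * sqrt K * (1 + B) / d ≤ m₀ := by
      rw [hm₀]
      push_cast
      exact (Nat.le_ceil _).trans (by linarith)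
    rw [div_le_iff₀ hd0] at h1
    linarith
  have hm2 : 0 < m₀ := by rw [hm₀]; omega
  obtain ⟨p₃, hp₃⟩ := poly_le (((m₀ : ℝ) * (2 ^ a) ^ 4) ^ 2) 8 (θ := ε / 3) (by positivity)
  refine ⟨p₁ + p₂ + p₃ + 2, fun p hp => ?_⟩
  obtain ⟨N, hN⟩ : ∃ N : ℕ, N = NN a p := ⟨_, rfl⟩
  have hN1 : 1 ≤ N := by rw [hN]; exact NN_pos a p
  have hN1' : (1 : ℝ) ≤ N := by exact_mod_cast hN1
  obtain ⟨M, hM⟩ : ∃ M : ℕ, M = m₀ * N ^ 4 := ⟨_, rfl⟩
  have hM0 : 0 < M := by rw [hM]; positivity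
  have hM0' : (0 : ℝ) < M := by exact_mod_cast hM0
  have hL1 := L_one92 (p := p) (by omega)
  have hsub : {R : ℝ | R ∈ Icc ((2 : ℝ) ^ p) (2 ^ (p + 1)) ∧ ∃ c : ℝ × ℝ, t * gR R < σ * E R c} ⊆
      ⋃ v ∈ Finset.range M ×ˢ Finset.range M, {R : ℝ | R ∈ Icc ((2 : ℝ) ^ p) (2 ^ (p + 1)) ∧ (t - 3 * d) * gR R < σ * E R ((v.1 : ℝ) / M, (v.2 : ℝ) / M)} := by
    rintro R ⟨hR, c, hc⟩
    obtain ⟨i, hi, hi'⟩ := net92 hM0 c.1
    obtain ⟨j, hj, hj'⟩ := net92 hM0 c.2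
    refine mem_biUnion (x := (i, j)) (Finset.mem_coe.2 (Finset.mem_product.2 ⟨Finset.mem_range.2 hi, Finset.mem_range.2 hj⟩)) ⟨hR, ?_⟩
    have hs0 : 0 ≤ sqrt R := sqrt_nonneg _
    have hgl := g_low92 hR
    obtain ⟨G, hG⟩ : ∃ G : ℝ, G = sqrt R * Lx p ^ (1 / 4 : ℝ) := ⟨_, rfl⟩
    have e1 := hp₁ p (by omega) R hR c
    have e2 := hp₁ p (by omega) R hR ((i : ℝ) / M, (j : ℝ) / M)
    have hper := Mx_per H (NN a p) R (Int.fract c.1, Int.fract c.2) ⌊c.1⌋ ⌊c.2⌋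
    simp only [Int.fract_add_floor] at hper
    have hce : Mx H (NN a p) R c = Mx H (NN a p) R (Int.fract c.1, Int.fract c.2) := hper
    have hlip := Mx_lip hK hB hN1 R R (Int.fract c.1, Int.fract c.2) ((i : ℝ) / M, (j : ℝ) / M)
    rw [sub_self, abs_zero, zero_add] at hlip
    have hlip2 : |Mx H (NN a p) R c - Mx H (NN a p) R ((i : ℝ) / M, (j : ℝ) / M)| ≤ d * Lx p ^ (1 / 4 : ℝ) := by
      rw [hce, ← hN]
      refine hlip.trans ?_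
      calc 36 * sqrt K * (1 + B) * (N : ℝ) ^ 4 * (|Int.fract c.1 - (i : ℝ) / M| + |Int.fract c.2 - (j : ℝ) / M|)
          ≤ 36 * sqrt K * (1 + B) * (N : ℝ) ^ 4 * (1 / M + 1 / M) := mul_le_mul_of_nonneg_left (add_le_add hi' hj') (by positivity)
        _ = 72 * sqrt K * (1 + B) * (N : ℝ) ^ 4 / M := by ring
        _ ≤ d * m₀ * (N : ℝ) ^ 4 / M := by
          refine div_le_div_of_nonneg_right (mul_le_mul_of_nonneg_right hm1 (by positivity)) hM0'.le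
        _ = d := by
          have hMe : (M : ℝ) = m₀ * (N : ℝ) ^ 4 := by rw [hM]; push_cast; ring
          rw [hMe, mul_assoc]
          have : ((m₀ : ℝ) * (N : ℝ) ^ 4) ≠ 0 := by rw [← hMe]; exact hM0'.ne'
          field_simp
        _ ≤ d * Lx p ^ (1 / 4 : ℝ) := le_mul_of_one_le_right hd0.le hL1
    have e3 : |sqrt R * Mx H (NN a p) R c - sqrt R * Mx H (NN a p) R ((i : ℝ) / M, (j : ℝ) / M)| ≤ d * G := by
      rw [← mul_sub, abs_mul, abs_of_nonneg hs0]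
      calc sqrt R * |_| ≤ sqrt R * (d * Lx p ^ (1 / 4 : ℝ)) := mul_le_mul_of_nonneg_left hlip2 hs0
        _ = d * G := by rw [hG]; ring
    rw [← hG] at e1 e2 hgl
    have e4 : |E R c - E R ((i : ℝ) / M, (j : ℝ) / M)| ≤ 3 * d * G := by
      rw [abs_le] at e1 e2 e3 ⊢
      constructor <;> linarith [e1.1, e1.2, e2.1, e2.2, e3.1, e3.2]
    have e5 : |σ * E R c - σ * E R ((i : ℝ) / M, (j : ℝ) / M)| ≤ 3 * d * G := by
      rw [← mul_sub, abs_mul, hσ, one_mul]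
      exact e4
    have e6 := (abs_le.1 e5).2
    have e7 : 3 * d * G ≤ 3 * d * gR R := mul_le_mul_of_nonneg_left hgl (by positivity)
    show (t - 3 * d) * gR R < σ * E R ((i : ℝ) / M, (j : ℝ) / M)
    nlinarith
  have hfin : volume (⋃ v ∈ Finset.range M ×ˢ Finset.range M, {R : ℝ | R ∈ Icc ((2 : ℝ) ^ p) (2 ^ (p + 1)) ∧ (t - 3 * d) * gR R < σ * E R ((v.1 : ℝ) / M, (v.2 : ℝ) / M)}) ≠ ⊤ := by
    refine ((measure_mono (iUnion₂_subset fun v _ => ?_)).trans_lt (measure_Icc_lt_top (a := (2 : ℝ) ^ p) (b := 2 ^ (p + 1)) (μ := volume))).ne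
    exact fun R hR => hR.1
  have h1 : LS (fun R c => σ * E R c) t (2 ^ p) (2 ^ (p + 1)) ≤ ((M : ℝ) ^ 2) * 2 ^ ((1 - ((t - 3 * d) / T) ^ 4 + ε / 3) * p : ℝ) := by
    unfold LS
    refine (measureReal_mono hsub hfin).trans ((measureReal_biUnion_finset_le _ _).trans ?_)
    refine (Finset.sum_le_sum fun v _ => hp₂ p (by omega) ((v.1 : ℝ) / M, (v.2 : ℝ) / M)).trans ?_
    rw [Finset.sum_const, nsmul_eq_mul, Finset.card_product, Finset.card_range]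
    push_cast
    rw [sq]
  refine h1.trans ?_
  have h2 : ((M : ℝ) ^ 2) ≤ 2 ^ (ε / 3 * p : ℝ) := by
    refine le_trans ?_ (hp₃ p (by omega))
    have h3 : (N : ℝ) ≤ 2 ^ a * p := by rw [hN]; exact NN_le a (by omega)
    have h4 : (M : ℝ) ≤ m₀ * (2 ^ a * p) ^ 4 := by
      rw [hM]
      push_cast
      exact mul_le_mul_of_nonneg_left (pow_le_pow_left₀ (by positivity) h3 4) (by positivity)
    calc (M : ℝ) ^ 2 ≤ (m₀ * (2 ^ a * p) ^ 4) ^ 2 := pow_le_pow_left₀ hM0'.le h4 2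
      _ = _ := by ring
  calc ((M : ℝ) ^ 2) * 2 ^ ((1 - ((t - 3 * d) / T) ^ 4 + ε / 3) * p : ℝ) ≤ 2 ^ (ε / 3 * p : ℝ) * 2 ^ ((1 - ((t - 3 * d) / T) ^ 4 + ε / 3) * p : ℝ) :=
        mul_le_mul_of_nonneg_right h2 (by positivity)
    _ = 2 ^ (ε / 3 * p + (1 - ((t - 3 * d) / T) ^ 4 + ε / 3) * p : ℝ) := (rpow_add (by norm_num) _ _).symm
    _ ≤ _ := by
      refine rpow_le_rpow_of_exponent_le (by norm_num) ?_
      have hp0 : (0 : ℝ) ≤ p := Nat.cast_nonneg _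
      nlinarith

/-- the law for all centres at the same time -/
theorem lawS_of {H : ℝ → ℝ} (hO : IsOv H) {σ : ℝ} (hσ : σ = 1 ∨ σ = -1)
    (hT : ∀ ε : ℝ, 0 < ε → ∃ a₀ : ℕ, ∀ a : ℕ, a₀ ≤ a → ∃ p₀ : ℕ, ∀ p : ℕ, p₀ ≤ p → ∀ R ∈ Icc ((2 : ℝ) ^ p) (2 ^ (p + 1)), ∀ c : ℝ × ℝ,
      |Er idf H c R - sqrt R * Mx H (NN a p) R c| ≤ ε * (sqrt R * Lx p ^ (1 / 4 : ℝ)))
    (h4 : Law4 σ H) : LawS σ H := by
  obtain ⟨K, B, -, hB0, hK, hB⟩ := bds92 hO.smooth hO.per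
  have hσ1 : |σ| = 1 := by rcases hσ with rfl | rfl <;> simp
  have key : ∀ E : ℝ → ℝ × ℝ → ℝ, (∀ ε : ℝ, 0 < ε → ∃ a₀ : ℕ, ∀ a : ℕ, a₀ ≤ a → ∃ p₀ : ℕ, ∀ p : ℕ, p₀ ≤ p → ∀ R ∈ Icc ((2 : ℝ) ^ p) (2 ^ (p + 1)), ∀ c : ℝ × ℝ,
      |E R c - sqrt R * Mx H (NN a p) R c| ≤ ε * (sqrt R * Lx p ^ (1 / 4 : ℝ))) → (∀ R c, Es σ H c R = σ * E R c) → LawS σ H := by
    intro E hE hEs
    have h1 := h4.1
    unfold LawS
    simp only [hEs] at h1 ⊢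
    exact det92 hB0 hK hB hσ1 hE h1
  rcases hσ with rfl | rfl
  · exact key (fun R c => ErO idf H c R) (trunc_open hO hT) (fun R c => by rw [Es_one, one_mul])
  · exact key (fun R c => Er idf H c R) hT (fun R c => by rw [Es_neg, neg_one_mul])

end Pool.Agent.Helper93.EX
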